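import Mathlib

namespace Pool.Agent.Results.MP_c84e26_co.Q1

open Filter Real

/-- `n ∈ A_R` iff there is no `M ∈ R` with `max M ≤ n` and `n - M ⊆ A_R`. -/
def inA (R : Set (Finset ℕ)) (n : ℕ) : Prop :=
  ¬ ∃ M ∈ R, (∀ m ∈ M, m ≤ n) ∧ ∀ m ∈ M, ∀ _ : 0 < m ∧ m ≤ n, inA R (n - m)
termination_by n
decreasing_by omega

/-- The base ruleset `{{d, 2d} : d ≥ 1}`. -/
def M0 : Set (Finset ℕ) := {M | ∃ d, 1 ≤ d ∧ M = {d, 2 * d}}

noncomputable def B (k : ℕ) : Finset ℕ := (rothNumberNat_spec (4 ^ k)).choose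

lemma B_lt {k b} (h : b ∈ B k) : b < 4 ^ k :=
  Finset.mem_range.1 ((rothNumberNat_spec (4 ^ k)).choose_spec.1 h)

def A : Set ℕ := {n | n ≤ 1 ∨ ∃ k, ∃ b ∈ B k, n = 4 * 4 ^ k + 2 * b}

lemma pw {j k : ℕ} (h : j < k) : 4 * 4 ^ j ≤ 4 ^ k := by
  rw [← pow_succ']; exact Nat.pow_le_pow_right (by omega) h

lemma noAP {a d : ℕ} (hd : 1 ≤ d) (h1 : a ∈ A) (h2 : a + d ∈ A) (h3 : a + 2 * d ∈ A) : False := by
  rcases h3 with h3 | ⟨k, z, hz, e3⟩
  · omega
  have z1 := B_lt hz
  have p : 0 < 4 ^ k := by positivity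
  rcases h2 with h2 | ⟨j, y, hy, e2⟩
  · omega
  have y1 := B_lt hy
  rcases lt_trichotomy j k with h | rfl | h
  · have := pw h; omega
  · rcases h1 with h1 | ⟨i, x, hx, e1⟩
    · omega
    have x1 := B_lt hx
    rcases lt_trichotomy i j with h | rfl | h
    · have := pw h; omega
    · have := (rothNumberNat_spec (4 ^ i)).choose_spec.2.2 hx hy hz (by omega)
      omega
    · have := pw h; omega
  · have := pw h; omega

lemma cons {a : ℕ} (h1 : a ∈ A) (h2 : a + 1 ∈ A) : a = 0 := by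
  rcases h2 with h2 | ⟨k, z, -, e⟩
  · omega
  have p : 0 < 4 ^ k := by positivity
  rcases h1 with h1 | ⟨j, y, -, e'⟩ <;> omega

def M1 : Set (Finset ℕ) := {M | ∃ n, n ∉ A ∧ M = {n, n - 1}}

lemma two {n} (h : n ∉ A) : 2 ≤ n := by
  by_contra h'; exact h (Or.inl (by omega))

lemma key (n : ℕ) : inA (M0 ∪ M1) n ↔ n ∈ A := by
  induction n using Nat.strong_induction_on with | _ n ih
  rw [inA]
  constructor
  · intro h
    by_contra hn
    have := two hn
    refine h ⟨{n, n - 1}, Or.inr ⟨n, hn, rfl⟩, by simp, fun m hm h => (ih _ (by omega)).2 (Or.inl ?_)⟩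
    simp at hm; omega
  · rintro hn ⟨M, ⟨d, hd, rfl⟩ | ⟨m, hm, rfl⟩, h1, h2⟩
    · have a1 := h1 (2 * d) (by simp)
      have a2 := (ih _ (by omega)).1 (h2 d (by simp) (by omega))
      have a3 := (ih _ (by omega)).1 (h2 (2 * d) (by simp) (by omega))
      exact noAP hd a3 (by convert a2 using 1; omega) (by convert hn using 1; omega)
    · have := two hm
      have a1 := h1 m (by simp)
      have a2 := (ih _ (by omega)).1 (h2 m (by simp) (by omega))
      have a3 := (ih _ (by omega)).1 (h2 (m - 1) (by simp) (by omega))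
      have := cons a2 (by convert a3 using 1; omega)
      exact hm (by convert hn using 1; omega)

lemma grow (C : ℝ) : ∀ᶠ N : ℝ in atTop, C * (6 * N) ^ (log 2 / log 3) ≤ N * exp (-4 * √(log N)) := by
  have ha : log 2 / log 3 ≤ 2 / 3 := by
    rw [div_le_div_iff₀ (log_pos (by norm_num)) (by norm_num)]
    have := log_le_log (x := 2 ^ 3) (y := 3 ^ 2) (by norm_num) (by norm_num)
    rw [log_pow, log_pow] at this; push_cast at this; linarith
  filter_upwards [tendsto_log_atTop.eventually_ge_atTop 576,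
    tendsto_log_atTop.eventually_ge_atTop (6 * (6 * |C|)), eventually_ge_atTop 1] with N h1 h2 h3
  have h4 : (6 * N) ^ (log 2 / log 3) ≤ 6 * exp (log N * (2 / 3)) := by
    refine (rpow_le_rpow_of_exponent_le (by linarith) ha).trans ?_
    rw [mul_rpow (by norm_num) (by linarith), rpow_def_of_pos (x := N) (by linarith)]
    refine mul_le_mul_of_nonneg_right ?_ (exp_pos _).le
    simpa using rpow_le_rpow_of_exponent_le (x := 6) (y := 2 / 3) (z := 1) (by norm_num) (by norm_num)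
  have h5 : √(log N) ≤ log N / 24 := by
    rw [sqrt_le_left (by linarith)]; nlinarith
  have h6 : 6 * |C| ≤ exp (log N / 6) := by linarith [add_one_le_exp (log N / 6)]
  calc _ ≤ |C| * (6 * exp (log N * (2 / 3))) :=
        mul_le_mul (le_abs_self _) h4 (by positivity) (abs_nonneg _)
    _ ≤ exp (log N / 6) * exp (log N * (2 / 3)) := by nlinarith [exp_pos (log N * (2 / 3))]
    _ ≤ exp (log N) * exp (-4 * √(log N)) := by
        rw [← exp_add, ← exp_add]; exact exp_le_exp.2 (by linarith)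
    _ = _ := by rw [exp_log (by linarith)]

theorem result : ∃ M' : Set (Finset ℕ), (∀ M ∈ M', M.Nonempty ∧ ∀ m ∈ M, 0 < m) ∧
    ∀ C : ℝ, ∃ᶠ x : ℕ in atTop,
      C * (x : ℝ) ^ (log 2 / log 3) ≤ ({i | i < x ∧ inA (M0 ∪ M') i}.ncard : ℝ) := by
  refine ⟨M1, ?_, fun C => ?_⟩
  · rintro _ ⟨n, hn, rfl⟩
    have := two hn
    exact ⟨by simp, by simp; omega⟩
  have t1 : Tendsto (fun k : ℕ => 4 ^ k) atTop atTop := tendsto_pow_atTop_atTop_of_one_lt (by norm_num)
  have t2 : Tendsto (fun k : ℕ => 6 * 4 ^ k) atTop atTop := t1.const_mul_atTop' (by norm_num)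
  refine t2.frequently (Eventually.frequently ?_)
  filter_upwards [(tendsto_natCast_atTop_atTop.comp t1).eventually (grow C)] with k hk
  have h1 : (B k).card ≤ {i | i < 6 * 4 ^ k ∧ inA (M0 ∪ M1) i}.ncard := by
    rw [← Set.ncard_coe_finset]
    refine Set.ncard_le_ncard_of_injOn (fun b => 4 * 4 ^ k + 2 * b) (fun b hb => ?_)
      (fun a _ b _ h => by simpa using h) ((Set.finite_lt_nat _).subset fun i h => h.1)
    have := B_lt hb
    exact ⟨by omega, (key _).2 (Or.inr ⟨k, b, hb, rfl⟩)⟩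
  have h2 : (B k).card = rothNumberNat (4 ^ k) := (rothNumberNat_spec (4 ^ k)).choose_spec.2.1
  have h3 := Behrend.roth_lower_bound (N := 4 ^ k)
  rw [← h2] at h3
  rw [Nat.cast_mul]
  exact (hk.trans h3).trans (by exact_mod_cast h1)

end Pool.Agent.Results.MP_c84e26_co.Q1
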